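import Mathlib

/-! An admissible sequence of 11 squares. -/

namespace Pool.Agent.Results.MP_7197c3_nt.ElevenTerms

theorem result : ∃ x : ℕ → ℕ, (∀ i < 11, 0 < x i) ∧
    (∀ i, i + 1 < 11 → IsSquare (x i ^ 2 + x (i + 1) ^ 2)) ∧
    (∀ i, i + 2 < 11 → IsSquare (x i ^ 2 + x (i + 1) ^ 2 + x (i + 2) ^ 2)) := by
  let a : List ℕ := [7436470304941822084661903805510181934082582838789605517429737109485,
    21388513972041874143699902234658045488170006791713881959903209497800,
    32818736178025402161265987782168520320654756146341570382769015849600,
    23822046433898529095187415716694721575135899540613696450539349740000,
    29096928144261774823407486339677124209630277296035300664587348611000,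
    16891996562218956994769258417292620753278183310616984755836993452000,
    11331714360488550317324377521600466421990781304205560607040649774050,
    70245985703861760185564842930448581425217811084395021972444082526000,
    23857181531895271924845264745120898348687902074188782023382570368000,
    10652446483554589322298589494865356075737334653621455036341429224000,
    76419256701019216913033011239243752223704525444350913186709147664128]
  let b : List ℕ := [22644416983630026427188957437282066937705959163305493897648456474765,
    39173179271729577725924409965063948578122986012234227793045546445000,
    40553166838382067451911252625251222130763814438748614684892181349600,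
    37604801870654106643117277667068096200750241417683049396922830661000,
    33644773372551494014306902067409752873974403571970642714235769925000,
    20340779193671994047867982010823197490405812403201285810153712948450,
    71154102185712758991482824404305064797014981711561321254541416828450,
    74186680867612318494579462553526586956027866337720847574520667810000,
    26127375044783954895171193653862695545156514377419583916373366760000,
    77158132499570419704377385510297428366330229960889042283677718664128]
  let c : List ℕ := [39872786018177176853857410775022997613865994557052113837405719609485,
    45847877492353792458836487774422781692458892735621918860937508075000,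
    49911827937413632453592023085381291320995774972561138290461211604600,
    41224515419701025999139261613630800647881280698529546130316472115000,
    35501810174103129350590830156233909578581588467977574051175541961550,
    73131701783240832005504591243402737470569500733292090201566235574050,
    75047127649901818611275492983555513809307173393274334450141269225950,
    74947569902151932017600790374588398104294818812979522934259341326000,
    80762259264257026212289424514002319994562386380582017251263127335872]
  have h1 : ∀ i < 11, 0 < a.getD i 0 := by decide +kernel
  have h2 : ∀ i < 10, a.getD i 0 ^ 2 + a.getD (i + 1) 0 ^ 2 = b.getD i 0 * b.getD i 0 := by
    decide +kernel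
  have h3 : ∀ i < 9, a.getD i 0 ^ 2 + a.getD (i + 1) 0 ^ 2 + a.getD (i + 2) 0 ^ 2 =
      c.getD i 0 * c.getD i 0 := by decide +kernel
  exact ⟨fun i => a.getD i 0, h1, fun i hi => ⟨_, h2 i (by omega)⟩, fun i hi => ⟨_, h3 i (by omega)⟩⟩

end Pool.Agent.Results.MP_7197c3_nt.ElevenTerms
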